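import Pool.Agent.H13.GeoP7

namespace Pool.Agent.Results.MP_6e0a1a_co.Cex

/-- The edges `xy` and `uv` share no endpoint and their segments meet. -/
def Cross {n : ℕ} (P : Fin n → ℝ × ℝ) (x y u v : Fin n) : Prop :=
  x ≠ y ∧ u ≠ v ∧ x ≠ u ∧ x ≠ v ∧ y ≠ u ∧ y ≠ v ∧
    (segment ℝ (P x) (P y) ∩ segment ℝ (P u) (P v)).Nonempty

/-- Distinct points, no three collinear, no three edges through a common crossing point. -/
def GenPos {n : ℕ} (P : Fin n → ℝ × ℝ) : Prop :=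
  Function.Injective P ∧ (∀ i j k, i ≠ j → i ≠ k → j ≠ k → ¬ Collinear ℝ {P i, P j, P k}) ∧
    ∀ a b c d e f, Cross P a b c d → Cross P a b e f → Cross P c d e f →
      segment ℝ (P a) (P b) ∩ segment ℝ (P c) (P d) ∩ segment ℝ (P e) (P f) = ∅

/-- Geometric realizations of the complete graph on `n` vertices. -/
def Realization (n : ℕ) : Type := {P : Fin n → ℝ × ℝ // GenPos P}

/-- There is a vertex-injective geometric homomorphism. -/
def Le {n : ℕ} (P Q : Realization n) : Prop := ∃ f : Fin n → Fin n, Function.Injective f ∧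
  ∀ x y u v, Cross P.1 x y u v → Cross Q.1 (f x) (f y) (f u) (f v)

/-- There is a geometric isomorphism. -/
def Iso {n : ℕ} (P Q : Realization n) : Prop := ∃ f : Fin n ≃ Fin n,
  ∀ x y u v, Cross P.1 x y u v ↔ Cross Q.1 (f x) (f y) (f u) (f v)

/-- Geometric isomorphism classes of realizations. -/
def K (n : ℕ) : Type := Quot (@Iso n)

/-- The order on classes. -/
def KLe {n : ℕ} (a b : K n) : Prop := ∃ P Q : Realization n, Quot.mk _ P = a ∧ Quot.mk _ Q = b ∧ Le P Q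

open Pool.Agent.H13.GeoK Pool.Agent.H13.GeoP

theorem gp {n : ℕ} {P : Fin n → ℝ × ℝ} (h : GenPos P) : GP P := by
  intro i j k a b d e
  apply h.2.1 i j k a b d
  have hne : P j - P i ≠ 0 := sub_ne_zero.2 (h.1.ne a.symm)
  have hpos : ((P j).1 - (P i).1) ^ 2 + ((P j).2 - (P i).2) ^ 2 ≠ 0 := by
    intro h0
    apply hne
    ext <;> simp only [Prod.fst_sub, Prod.snd_sub, Prod.fst_zero, Prod.snd_zero] <;> nlinarith
  rw [collinear_iff_of_mem (p₀ := P i) (by simp)]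
  refine ⟨P j - P i, ?_⟩
  intro p hp
  simp only [Set.mem_insert_iff, Set.mem_singleton_iff] at hp
  rcases hp with rfl | rfl | rfl
  · exact ⟨0, by simp⟩
  · exact ⟨1, by simp⟩
  · refine ⟨(((P k).1 - (P i).1) * ((P j).1 - (P i).1) + ((P k).2 - (P i).2) * ((P j).2 - (P i).2)) /
      (((P j).1 - (P i).1) ^ 2 + ((P j).2 - (P i).2) ^ 2), ?_⟩
    unfold o at e
    ext <;> simp only [vadd_eq_add, Prod.fst_add, Prod.snd_add, Prod.smul_fst, Prod.smul_snd, Prod.fst_sub,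
      Prod.snd_sub, smul_eq_mul] <;> field_simp
    · linear_combination (-((P j).2 - (P i).2)) * e
    · linear_combination ((P j).1 - (P i).1) * e

theorem seg0 {p q z : ℝ × ℝ} (h : z ∈ segment ℝ p q) : o p q z = 0 := by
  obtain ⟨a, b, -, -, hab, rfl⟩ := h
  obtain rfl : a = 1 - b := by linarith
  simp only [o, Prod.fst_add, Prod.snd_add, Prod.smul_fst, Prod.smul_snd, smul_eq_mul]; ring

theorem half {p q u v z : ℝ × ℝ} (p1 : o p q u ≠ 0) (p2 : o p q v ≠ 0) (h1 : z ∈ segment ℝ p q)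
    (h2 : z ∈ segment ℝ u v) : o p q u * o p q v < 0 := by
  have h0 := seg0 h1
  obtain ⟨a, b, ha, hb, hab, rfl⟩ := h2
  have key : a * o p q u + b * o p q v = 0 := by
    obtain rfl : a = 1 - b := by linarith
    rw [← h0]
    simp only [o, Prod.fst_add, Prod.snd_add, Prod.smul_fst, Prod.smul_snd, smul_eq_mul]; ring
  by_contra hn
  have hp : 0 < o p q u * o p q v := lt_of_le_of_ne (not_lt.1 hn) (mul_ne_zero p1 p2).symm
  have q1 : 0 < o p q u ^ 2 := by positivity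
  have : a * o p q u ^ 2 + b * (o p q u * o p q v) = 0 := by linear_combination o p q u * key
  rcases ha.eq_or_lt with rfl | h1
  · have : b = 1 := by linarith
    subst this; linarith
  · nlinarith [mul_pos h1 q1, mul_nonneg hb hp.le]

theorem frac {s t : ℝ} (h : s * t < 0) : s - t ≠ 0 ∧ 0 ≤ s / (s - t) ∧ 0 ≤ -t / (s - t) := by
  rcases mul_neg_iff.1 h with ⟨a, b⟩ | ⟨a, b⟩
  · exact ⟨by linarith, div_nonneg a.le (by linarith), div_nonneg (by linarith) (by linarith)⟩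
  · exact ⟨by linarith, div_nonneg_of_nonpos a.le (by linarith), div_nonneg_of_nonpos (by linarith) (by linarith)⟩

theorem cross_iff {n : ℕ} {P : Fin n → ℝ × ℝ} (h : GP P) {x y u v : Fin n} :
    Cross P x y u v ↔ X P x y u v := by
  constructor
  · rintro ⟨a, b, d, e, f, g, z, z1, z2⟩
    exact ⟨half (h _ _ _ a d f) (h _ _ _ a e g) z1 z2,
      half (h _ _ _ b d.symm e.symm) (h _ _ _ b f.symm g.symm) z2 z1⟩
  · intro hx
    obtain ⟨h01, h02, h03, h12, h13, h23⟩ := X_ne hx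
    obtain ⟨a1, a2, a3⟩ := frac hx.1
    obtain ⟨b1, b2, b3⟩ := frac hx.2
    refine ⟨h01, h23, h02, h03, h12, h13, _, ⟨_, _, b3, b2, by field_simp; ring, rfl⟩,
      ⟨_, _, a3, a2, by field_simp; ring, ?_⟩⟩
    have e : o (P u) (P v) (P x) - o (P u) (P v) (P y) = -(o (P x) (P y) (P u) - o (P x) (P y) (P v)) := by
      unfold o; ring
    rw [e]
    ext <;> simp only [Prod.fst_add, Prod.snd_add, Prod.smul_fst, Prod.smul_snd, smul_eq_mul] <;>
      field_simp <;> unfold o <;> ring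

theorem gen6 {r : ℕ} (h : r < 15) : GenPos (P6 r) := by
  have g := (P6_spec h).1
  refine ⟨fun i j e => ?_, fun i j k a b d hc => ?_, fun a b c d e f h1 h2 h3 => ?_⟩
  · by_contra hn
    have : ∀ i j : Fin 6, ∃ k, i ≠ k ∧ j ≠ k := by decide
    obtain ⟨k, k1, k2⟩ := this i j
    apply g i j k hn k1 k2
    rw [e]; unfold o; ring
  · rw [collinear_iff_of_mem (p₀ := P6 r i) (by simp)] at hc
    obtain ⟨v, hv⟩ := hc
    obtain ⟨s, hs⟩ := hv (P6 r j) (by simp)
    obtain ⟨t, ht⟩ := hv (P6 r k) (by simp)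
    apply g i j k a b d
    rw [hs, ht]
    simp only [o, vadd_eq_add, Prod.fst_add, Prod.snd_add, Prod.smul_fst, Prod.smul_snd, smul_eq_mul]; ring
  · rw [Set.eq_empty_iff_forall_notMem]
    rintro z ⟨⟨z1, z2⟩, z3⟩
    exact P6_tri h ((cross_iff g).1 h1) ((cross_iff g).1 h2) ((cross_iff g).1 h3) z (seg0 z1) (seg0 z2) (seg0 z3)

theorem le_X {n : ℕ} (P Q : Realization n) : Le P Q ↔ LeX P.1 Q.1 := by
  simp only [Le, LeX, cross_iff (gp P.2), cross_iff (gp Q.2)]

theorem Le.trans {n : ℕ} {P Q R : Realization n} (a : Le P Q) (b : Le Q R) : Le P R := by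
  obtain ⟨f, hf, a⟩ := a
  obtain ⟨g, hg, b⟩ := b
  exact ⟨g ∘ f, hg.comp hf, fun x y u v h => b _ _ _ _ (a _ _ _ _ h)⟩

theorem eq_le {n : ℕ} {P Q : Realization n} (h : Quot.mk (@Iso n) P = Quot.mk _ Q) : Le P Q ∧ Le Q P := by
  have := Quot.eqvGen_exact h
  clear h
  induction this with
  | rel P Q h =>
    obtain ⟨f, hf⟩ := h
    exact ⟨⟨f, f.injective, fun x y u v => (hf x y u v).1⟩,
      ⟨f.symm, f.symm.injective, fun x y u v h => (hf _ _ _ _).2 (by simpa using h)⟩⟩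
  | refl P => exact ⟨⟨id, fun _ _ h => h, fun _ _ _ _ h => h⟩, ⟨id, fun _ _ h => h, fun _ _ _ _ h => h⟩⟩
  | symm P Q _ ih => exact ih.symm
  | trans P Q R _ _ a b => exact ⟨a.1.trans b.1, b.2.trans a.2⟩

theorem kle {n : ℕ} (P Q : Realization n) : KLe (Quot.mk _ P) (Quot.mk _ Q) ↔ Le P Q :=
  ⟨fun ⟨_, _, a, b, h⟩ => ((eq_le a).2.trans h).trans (eq_le b).1, fun h => ⟨P, Q, rfl, rfl, h⟩⟩

theorem result : ¬ ∃ φ : K 6 → K 7, Function.Injective φ ∧ ∀ a b, KLe a b ↔ KLe (φ a) (φ b) := by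
  rintro ⟨φ, -, H⟩
  let P : ℕ → Realization 6 := fun r => if h : r < 15 then ⟨P6 r, gen6 h⟩ else ⟨P6 0, gen6 (by norm_num)⟩
  have hP : ∀ r < 15, (P r).1 = P6 r := fun r h => by simp [P, h]
  choose Q hQ using fun r => Quot.exists_rep (φ (Quot.mk _ (P r)))
  refine no_emb (fun r => (Q r).1) (fun r _ => ⟨gp (Q r).2, (Q r).2.1⟩) fun s hs t ht => ?_
  rw [← hP s hs, ← hP t ht, ← le_X, ← le_X, ← kle, ← kle, hQ, hQ]
  exact H _ _

end Pool.Agent.Results.MP_6e0a1a_co.Cex
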